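import Pool.Agent.Y719.TN.Burn

/-!
# Characteristic polynomials of irreducible representations in characteristic `p`
-/

set_option autoImplicit false

namespace Pool.Agent.Y719.BP

open Polynomial Finset Pool.Agent.Y719.NG

variable {G : Type} [Group G] {k : Type} [Field k] {n m : ℕ}

lemma eq_zero_of_mulVec {M : Matrix (Fin n) (Fin n) k} (h : ∀ v, M.mulVec v = 0) : M = 0 := by
  ext i j
  have h1 := congrFun (h (Pi.single j 1)) i
  rw [Matrix.mulVec_single_one] at h1
  exact h1

/-- the same annihilator -/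
def Eqv (ρ : G →* GL (Fin n) k) (σ : G →* GL (Fin m) k) : Prop :=
  ∀ x : MonoidAlgebra k G, ga ρ x = 0 ↔ ga σ x = 0

lemma eqv_of_bij {ρ : G →* GL (Fin n) k} {σ : G →* GL (Fin m) k}
    (f : Md (ga ρ) →ₗ[MonoidAlgebra k G] Md (ga σ)) (hf : Function.Bijective f) : Eqv ρ σ := by
  intro x
  constructor
  · intro hx
    refine eq_zero_of_mulVec fun y => ?_
    obtain ⟨z, hz⟩ := hf.2 y
    have h1 : f (x • z) = x • f z := f.map_smul x z
    have h2 : x • z = 0 := by
      change (ga ρ x).mulVec z = 0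
      rw [hx, Matrix.zero_mulVec]
    rw [h2, map_zero, hz] at h1
    exact h1.symm
  · intro hx
    refine eq_zero_of_mulVec fun y => ?_
    have h1 : f (x • (show Md (ga ρ) from y)) = x • f y := f.map_smul x y
    have h2 : x • f y = 0 := by
      change (ga σ x).mulVec (f y) = 0
      rw [hx, Matrix.zero_mulVec]
    rw [h2] at h1
    have h3 : x • (show Md (ga ρ) from y) = 0 := hf.1 (h1.trans (map_zero f).symm)
    exact h3

lemma bij_of_eqv {ρ : G →* GL (Fin n) k} {σ : G →* GL (Fin m) k} (hρ : Irr ρ) (hσ : Irr σ)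
    (h : Eqv ρ σ) : ∃ f : Md (ga ρ) →ₗ[MonoidAlgebra k G] Md (ga σ), Function.Bijective f := by
  haveI := hρ.simple
  haveI := hσ.simple
  obtain ⟨-, f, hf⟩ := exists_hom_of_ann (L := Unit) (ga ρ) (fun _ => ga σ)
    fun x hx => (h x).2 (hx ())
  exact ⟨f, (LinearMap.bijective_or_eq_zero f).resolve_right hf⟩

/-- the matrix of a homomorphism -/
lemma exists_linear {ρ : G →* GL (Fin n) k} {σ : G →* GL (Fin m) k}
    (f : Md (ga ρ) →ₗ[MonoidAlgebra k G] Md (ga σ)) :
    ∃ F : (Fin n → k) →ₗ[k] (Fin m → k), (∀ x, F x = f x) ∧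
      ∀ g x, F ((mt ρ g).mulVec x) = (mt σ g).mulVec (F x) := by
  let F : (Fin n → k) →ₗ[k] (Fin m → k) :=
    { toFun := fun x => f (show Md (ga ρ) from x)
      map_add' := fun x y => f.map_add _ _
      map_smul' := fun c x => by
        have h1 := f.map_smul (MonoidAlgebra.single (1 : G) c) (show Md (ga ρ) from x)
        have h2 : (MonoidAlgebra.single (1 : G) c : MonoidAlgebra k G) •
            (show Md (ga ρ) from x) = (show Md (ga ρ) from c • x) := by
          change (ga ρ (MonoidAlgebra.single (1 : G) c)).mulVec x = c • x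
          rw [ga_single, mt_one, Matrix.smul_mulVec, Matrix.one_mulVec]
        have h3 : ∀ y : Md (ga σ), (MonoidAlgebra.single (1 : G) c : MonoidAlgebra k G) • y =
            (show Md (ga σ) from c • (show Fin m → k from y)) := by
          intro y
          change (ga σ (MonoidAlgebra.single (1 : G) c)).mulVec y = c • (show Fin m → k from y)
          rw [ga_single, mt_one, Matrix.smul_mulVec, Matrix.one_mulVec]
        rw [h2, h3] at h1
        exact h1 }
  refine ⟨F, fun x => rfl, fun g x => ?_⟩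
  have h1 := f.map_smul (MonoidAlgebra.single g (1 : k)) (show Md (ga ρ) from x)
  have h2 : (MonoidAlgebra.single g (1 : k) : MonoidAlgebra k G) •
      (show Md (ga ρ) from x) = (show Md (ga ρ) from (mt ρ g).mulVec x) := by
    change (ga ρ (MonoidAlgebra.single g (1 : k))).mulVec x = _
    rw [ga_single, one_smul]
  have h3 : ∀ y : Md (ga σ), (MonoidAlgebra.single g (1 : k) : MonoidAlgebra k G) • y =
      (show Md (ga σ) from (mt σ g).mulVec (show Fin m → k from y)) := by
    intro y
    change (ga σ (MonoidAlgebra.single g (1 : k))).mulVec y = _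
    rw [ga_single, one_smul]
  rw [h2, h3] at h1
  exact h1

/-- equivalent irreducible representations are isomorphic -/
lemma equiv_of_eqv {ρ : G →* GL (Fin n) k} {σ : G →* GL (Fin m) k} (hρ : Irr ρ) (hσ : Irr σ)
    (h : Eqv ρ σ) : ∃ E : (Fin n → k) ≃ₗ[k] (Fin m → k),
      ∀ g x, E ((mt ρ g).mulVec x) = (mt σ g).mulVec (E x) := by
  obtain ⟨f, hf⟩ := bij_of_eqv hρ hσ h
  obtain ⟨F, hF, hg⟩ := exists_linear f
  have hFf : (F : (Fin n → k) → (Fin m → k)) = f := funext hF
  exact ⟨LinearEquiv.ofBijective F (by rw [hFf]; exact hf), hg⟩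

lemma charpoly_eq {ρ : G →* GL (Fin n) k} {σ : G →* GL (Fin m) k} (hρ : Irr ρ) (hσ : Irr σ)
    (h : Eqv ρ σ) (g : G) : (mt ρ g).charpoly = (mt σ g).charpoly := by
  obtain ⟨E, hE⟩ := equiv_of_eqv hρ hσ h
  have h1 : E.conj (Matrix.toLin' (mt ρ g)) = Matrix.toLin' (mt σ g) := by
    refine LinearMap.ext fun x => ?_
    rw [LinearEquiv.conj_apply_apply, Matrix.toLin'_apply, Matrix.toLin'_apply, hE,
      LinearEquiv.apply_symm_apply]
  rw [← Matrix.charpoly_toLin' (mt ρ g), ← Matrix.charpoly_toLin' (mt σ g), ← h1,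
    LinearEquiv.charpoly_conj]

section indep

variable [IsAlgClosed k] {I : Type} [Fintype I] {d : I → ℕ}

lemma ga_surjective {ρ : G →* GL (Fin n) k} (h : Irr ρ) (M : Matrix (Fin n) (Fin n) k) :
    ∃ y, ga ρ y = M := by
  have h1 : Submodule.span k (Set.range (mt ρ)) ≤ LinearMap.range (ga ρ).toLinearMap := by
    rw [Submodule.span_le]
    rintro _ ⟨g, rfl⟩
    refine ⟨MonoidAlgebra.single g 1, ?_⟩
    rw [AlgHom.toLinearMap_apply, ga_single, one_smul]
  rw [Pool.Agent.Y719.TN.burnside ρ h] at h1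
  obtain ⟨y, hy⟩ := h1 (Submodule.mem_top (x := M))
  exact ⟨y, hy⟩

/-- **Linear independence of the traces.** -/
theorem indep (V : ∀ i, G →* GL (Fin (d i)) k) (hV : ∀ i, Irr (V i))
    (hd : ∀ i j, Eqv (V i) (V j) → i = j) (c : I → k)
    (h : ∀ g, ∑ i, c i * (mt (V i) g).trace = 0) (i : I) : c i = 0 := by
  classical
  have hlin : ∀ y : MonoidAlgebra k G, ∑ i, c i * (ga (V i) y).trace = 0 := by
    intro y
    induction y using MonoidAlgebra.induction_linear with
    | zero => simp
    | add a b ha hb =>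
      simp only [map_add, Matrix.trace_add, mul_add, Finset.sum_add_distrib]
      rw [ha, hb, add_zero]
    | single g a =>
      have h1 : ∀ i, c i * (ga (V i) (MonoidAlgebra.single g a)).trace =
          a * (c i * (mt (V i) g).trace) := by
        intro i
        rw [ga_single, Matrix.trace_smul, smul_eq_mul]
        ring
      rw [sum_congr rfl fun i _ => h1 i, ← mul_sum, h g, mul_zero]
  haveI := fun i => (hV i).simple
  obtain ⟨x, hx, hxi⟩ : ∃ x : MonoidAlgebra k G, (∀ l : {j // j ≠ i}, ga (V l.1) x = 0) ∧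
      ga (V i) x ≠ 0 := by
    by_contra hcon
    push Not at hcon
    obtain ⟨l, f, hf⟩ := exists_hom_of_ann (L := {j // j ≠ i}) (ga (V i)) (fun l => ga (V l.1))
      fun x hx => hcon x hx
    have h1 := (LinearMap.bijective_or_eq_zero f).resolve_right hf
    exact l.2 (hd _ _ (eqv_of_bij f h1)).symm
  obtain ⟨a, b, hab⟩ : ∃ a b, ga (V i) x a b ≠ 0 := by
    by_contra hcon
    push Not at hcon
    exact hxi (Matrix.ext hcon)
  obtain ⟨y, hy⟩ := ga_surjective (hV i) (Matrix.single b a (ga (V i) x a b)⁻¹)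
  have h1 := hlin (y * x)
  rw [sum_eq_single i] at h1
  · rw [map_mul, hy] at h1
    have h2 : (Matrix.single b a (ga (V i) x a b)⁻¹ * ga (V i) x).trace = 1 := by
      rw [Matrix.trace_single_mul]
      simp [hab]
    rw [h2, mul_one] at h1
    exact h1
  · intro j _ hj
    rw [map_mul, hx ⟨j, hj⟩, mul_zero, Matrix.trace_zero, mul_zero]
  · intro hi
    exact absurd (mem_univ i) hi

end indep

end Pool.Agent.Y719.BP
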