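import Pool.Agent.Y719.BP.Pow
import Pool.Agent.Y719.NG.TwInt

/-!
# Lifts to the complex numbers of polynomials over an algebraic closure of a prime field
-/

set_option autoImplicit false

namespace Pool.Agent.Y719.BP

open Polynomial Finset NumberField IsDedekindDomain Filter Topology
open Pool.Agent.Y719.NG Pool.Agent.Y719.EL.N
open Pool.Agent.Y774.MD (Concentrated)
open Pool.Agent.W401.Cheb (GK IsFrob IsInert)

section lift

variable {k : Type} [Field k]

/-- the lift of a polynomial -/
noncomputable def lift (T : k →*₀ ℂ) (Q : k[X]) : ℂ[X] :=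
  (Q.roots.map fun r => 1 - C (T r) * X).prod

variable {T : k →*₀ ℂ}

lemma lift_mul {P Q : k[X]} (hP : P ≠ 0) (hQ : Q ≠ 0) : lift T (P * Q) = lift T P * lift T Q := by
  unfold lift
  rw [roots_mul (mul_ne_zero hP hQ), Multiset.map_add, Multiset.prod_add]

lemma lift_one : lift T 1 = 1 := by
  unfold lift
  rw [roots_one]
  rfl

lemma lift_pow {P : k[X]} (hP : P ≠ 0) (a : ℕ) : lift T (P ^ a) = lift T P ^ a := by
  induction a with
  | zero => rw [pow_zero, pow_zero, lift_one]
  | succ a ih => rw [pow_succ, pow_succ, lift_mul (pow_ne_zero _ hP) hP, ih]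

lemma lift_prod {I : Type} (s : Finset I) (P : I → k[X]) (hP : ∀ i, P i ≠ 0) :
    lift T (∏ i ∈ s, P i) = ∏ i ∈ s, lift T (P i) := by
  classical
  induction s using Finset.induction_on with
  | empty => rw [prod_empty, prod_empty, lift_one]
  | insert i s hi ih =>
    rw [prod_insert hi, prod_insert hi, lift_mul (hP i) (prod_ne_zero_iff.2 fun j _ => hP j), ih]

lemma lift_eval (Q : k[X]) (z : ℂ) : (lift T Q).eval z = (Q.roots.map fun r => 1 - T r * z).prod := by
  unfold lift
  rw [← coe_evalRingHom, map_multiset_prod, Multiset.map_map]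
  congr 1
  refine Multiset.map_congr rfl fun r _ => ?_
  simp

lemma lift_coeff_zero (Q : k[X]) : (lift T Q).coeff 0 = 1 := by
  rw [coeff_zero_eq_eval_zero, lift_eval]
  simp

lemma lift_natDegree (Q : k[X]) : (lift T Q).natDegree ≤ Q.natDegree := by
  unfold lift
  refine (natDegree_multiset_prod_le _).trans ?_
  rw [Multiset.map_map]
  have h1 : (Q.roots.map (natDegree ∘ fun r => (1 - C (T r) * X : ℂ[X]))).sum ≤
      Multiset.card Q.roots • 1 := by
    rw [← Multiset.card_map (natDegree ∘ fun r => (1 - C (T r) * X : ℂ[X])) Q.roots]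
    refine Multiset.sum_le_card_nsmul _ _ fun x hx => ?_
    obtain ⟨r, -, rfl⟩ := Multiset.mem_map.1 hx
    simp only [Function.comp_apply]
    refine (natDegree_sub_le _ _).trans (max_le ?_ ((natDegree_C_mul_le _ _).trans natDegree_X_le))
    rw [natDegree_one]
    exact Nat.zero_le _
  refine h1.trans ?_
  rw [smul_eq_mul, mul_one]
  exact card_roots' Q

lemma exists_of_eval {Q : k[X]} {z : ℂ} (h : (lift T Q).eval z = 0) : ∃ r, T r * z = 1 := by
  rw [lift_eval, Multiset.prod_eq_zero_iff, Multiset.mem_map] at h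
  obtain ⟨r, -, hr⟩ := h
  exact ⟨r, (sub_eq_zero.1 hr).symm⟩

lemma roots_lift {Q : k[X]} (h : (0 : k) ∉ Q.roots) :
    (lift T Q).roots = Q.roots.map fun r => (T r)⁻¹ := by
  unfold lift
  have hne : ∀ r ∈ Q.roots, T r ≠ 0 := by
    intro r hr h0
    rw [map_eq_zero] at h0
    exact h (h0 ▸ hr)
  have hform : ∀ r, (1 - C (T r) * X : ℂ[X]) = C (-T r) * X + C 1 := by
    intro r
    rw [map_neg, map_one]
    ring
  rw [roots_multiset_prod, Multiset.bind_map]
  · have h1 : (Q.roots.bind fun r => (1 - C (T r) * X : ℂ[X]).roots) =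
        Q.roots.bind fun r => {(T r)⁻¹} := by
      refine Multiset.bind_congr fun r hr => ?_
      rw [hform, roots_C_mul_X_add_C _ (neg_ne_zero.2 (hne r hr))]
      rw [mul_one, inv_neg, neg_neg]
    rw [h1, Multiset.bind_singleton]
  · intro h0
    obtain ⟨r, hr, h1⟩ := Multiset.mem_map.1 h0
    have h2 := congrArg (fun P : ℂ[X] => P.coeff 0) h1
    simp at h2

/-- the lift is injective -/
lemma lift_injective [IsAlgClosed k] (hT : Function.Injective T) {A B : k[X]} (hA : A.Monic)
    (hB : B.Monic) (hA0 : (0 : k) ∉ A.roots) (hB0 : (0 : k) ∉ B.roots)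
    (h : lift T A = lift T B) : A = B := by
  have h1 : A.roots.map (fun r => (T r)⁻¹) = B.roots.map fun r => (T r)⁻¹ := by
    rw [← roots_lift hA0, ← roots_lift hB0, h]
  have h2 : Function.Injective fun r : k => (T r)⁻¹ := fun a b hab => hT (inv_injective hab)
  have h3 := Multiset.map_injective h2 h1
  rw [(IsAlgClosed.splits A).eq_prod_roots, (IsAlgClosed.splits B).eq_prod_roots, h3,
    hA.leadingCoeff, hB.leadingCoeff]

end lift

/-- the elements of the algebraic closure are roots of unity -/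
lemma norm_lift {p : ℕ} [Fact p.Prime] (T : AlgebraicClosure (ZMod p) →*₀ ℂ)
    {r : AlgebraicClosure (ZMod p)} (hr : r ≠ 0) : ‖T r‖ = 1 := by
  have h1 : ∃ m : ℕ, 0 < m ∧ r ^ m = 1 := by
    let L := IntermediateField.adjoin (ZMod p) {r}
    have hint : IsIntegral (ZMod p) r := Algebra.IsIntegral.isIntegral r
    haveI : FiniteDimensional (ZMod p) L := IntermediateField.adjoin.finiteDimensional hint
    haveI : Finite L := Module.finite_of_finite (ZMod p)
    let x : L := ⟨r, IntermediateField.mem_adjoin_simple_self (ZMod p) r⟩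
    have hx : x ≠ 0 := fun h => hr (congrArg Subtype.val h)
    obtain ⟨m, hm, hm1⟩ := isOfFinOrder_iff_pow_eq_one.1 (isOfFinOrder_of_finite (Units.mk0 x hx))
    refine ⟨m, hm, ?_⟩
    have h2 := congrArg (fun u : Lˣ => ((u : L) : AlgebraicClosure (ZMod p))) hm1
    simpa using h2
  obtain ⟨m, hm, h2⟩ := h1
  have h3 := congrArg (fun y => ‖T y‖) h2
  simp only [map_pow, map_one, norm_pow, norm_one] at h3
  exact (pow_eq_one_iff_of_nonneg (norm_nonneg _) hm.ne').1 h3

section

variable {K : Type} [Field K] [NumberField K]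

lemma nz_zero (P : HeightOneSpectrum (𝓞 K) → ℂ[X]) : nz 0 P = P := by
  funext v
  unfold nz
  simp

/-- lifts have the right type -/
lemma typ_lift {p : ℕ} [Fact p.Prime] (T : AlgebraicClosure (ZMod p) →*₀ ℂ) {n : ℕ}
    {Q : HeightOneSpectrum (𝓞 K) → (AlgebraicClosure (ZMod p))[X]}
    (hQ : ∀ v, (Q v).natDegree ≤ n) : Typ (nz 0 fun v => lift T (Q v)) n := by
  refine typ_weight (fun v => lift_coeff_zero _) (fun v => (lift_natDegree _).trans (hQ v))
    fun v z hz => ?_
  obtain ⟨r, hr⟩ := exists_of_eval hz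
  have hr0 : r ≠ 0 := by
    rintro rfl
    rw [map_zero, zero_mul] at hr
    exact zero_ne_one hr
  have h1 := congrArg norm hr
  rw [norm_mul, norm_lift T hr0, one_mul, norm_one] at h1
  rw [h1]
  simp

end

end Pool.Agent.Y719.BP
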