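import Pool.Agent.Y719.BP.Lift

/-!
# Moduli of Euler products of representations in characteristic `p`
-/

set_option autoImplicit false

namespace Pool.Agent.Y719.BP

open Polynomial Finset NumberField IsDedekindDomain Filter Topology
open Pool.Agent.Y719.NG Pool.Agent.Y719.EL.N
open Pool.Agent.Y774.MD (Concentrated)
open Pool.Agent.W401.Cheb (GK IsFrob IsInert)

/-- sets which are unions of cosets of finitely many open subgroups are closed -/
lemma isClosed_of_ker {G : Type} [Group G] [TopologicalSpace G] [IsTopologicalGroup G] {I : Type}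
    [Finite I] (U : I → Subgroup G) (hU : ∀ i, IsOpen (U i : Set G)) (C : Set G)
    (h : ∀ g ∈ C, ∀ u, (∀ i, u ∈ U i) → g * u ∈ C) : IsClosed C := by
  rw [← isOpen_compl_iff, isOpen_iff_mem_nhds]
  intro g hg
  have h1 : IsOpen (⋂ i, (U i : Set G)) := isOpen_iInter_of_finite hU
  have h2 : IsOpen ((fun x => g⁻¹ * x) ⁻¹' (⋂ i, (U i : Set G))) :=
    h1.preimage (continuous_const_mul g⁻¹)
  have h3 : g ∈ (fun x => g⁻¹ * x) ⁻¹' (⋂ i, (U i : Set G)) := by
    rw [Set.mem_preimage, inv_mul_cancel, Set.mem_iInter]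
    exact fun i => (U i).one_mem
  refine Filter.mem_of_superset (h2.mem_nhds h3) fun x hx hxC => hg ?_
  rw [Set.mem_preimage, Set.mem_iInter] at hx
  have h4 := h x hxC (g⁻¹ * x)⁻¹ fun i => (U i).inv_mem (hx i)
  have e : x * (g⁻¹ * x)⁻¹ = g := by group
  rwa [e] at h4

section reverse

variable {k : Type} [Field k]

lemma reverse_pow' (P : k[X]) (a : ℕ) : (P ^ a).reverse = P.reverse ^ a := by
  induction a with
  | zero => rw [pow_zero, pow_zero, ← C_1, reverse_C]
  | succ a ih => rw [pow_succ, pow_succ, reverse_mul_of_domain, ih]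

lemma reverse_prod' {I : Type} (s : Finset I) (P : I → k[X]) :
    (∏ i ∈ s, P i).reverse = ∏ i ∈ s, (P i).reverse := by
  classical
  induction s using Finset.induction_on with
  | empty => rw [prod_empty, prod_empty, ← C_1, reverse_C]
  | insert i s hi ih => rw [prod_insert hi, prod_insert hi, reverse_mul_of_domain, ih]

end reverse

section zero

variable {k : Type} [Field k] {G : Type} [Group G] {n : ℕ}

lemma zero_not_root (ρ : G →* GL (Fin n) k) (g : G) : (mt ρ g).charpoly.eval 0 ≠ 0 := by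
  rw [← coeff_zero_eq_eval_zero]
  intro h
  have h1 := Matrix.det_eq_sign_charpoly_coeff (mt ρ g)
  rw [h, mul_zero] at h1
  have h2 : IsUnit (mt ρ g).det := (Matrix.isUnit_iff_isUnit_det _).1 (ρ g).isUnit
  rw [h1] at h2
  exact not_isUnit_zero h2

end zero

variable {K : Type} [Field K] [NumberField K] {p : ℕ} [Fact p.Prime]

/-- the characteristic polynomials of the Frobenius elements -/
structure Fac {n : ℕ} (S : Set (HeightOneSpectrum (𝓞 K)))
    (ρ : GK K →* GL (Fin n) (AlgebraicClosure (ZMod p)))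
    (Q : HeightOneSpectrum (𝓞 K) → (AlgebraicClosure (ZMod p))[X]) : Prop where
  bad : ∀ v ∈ S, Q v = 1
  frob : ∀ v ∉ S, ∀ g, IsFrob v g → (mt ρ g).charpoly = Q v

lemma Fac.deg {n : ℕ} {S : Set (HeightOneSpectrum (𝓞 K))}
    {ρ : GK K →* GL (Fin n) (AlgebraicClosure (ZMod p))}
    {Q : HeightOneSpectrum (𝓞 K) → (AlgebraicClosure (ZMod p))[X]} (h : Fac S ρ Q)
    (v : HeightOneSpectrum (𝓞 K)) : (Q v).natDegree ≤ n := by
  by_cases hv : v ∈ S
  · rw [h.bad v hv, natDegree_one]
    exact Nat.zero_le _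
  · obtain ⟨g, hg⟩ := Pool.Agent.W401.Frob.exists_frob v
    rw [← h.frob v hv g hg, Matrix.charpoly_natDegree_eq_dim, Fintype.card_fin]

variable {κ : Type} [Fintype κ] {n : ℕ} {N : κ → ℕ} {m : κ → ℤ}

/-- **Moduli of Euler products of representations in characteristic `p`.** -/
theorem modp {I : Type} (T : AlgebraicClosure (ZMod p) →*₀ ℂ) (hT : Function.Injective T)
    (S : Set (HeightOneSpectrum (𝓞 K))) (hS : S.Finite)
    {ρ : GK K →* GL (Fin n) (AlgebraicClosure (ZMod p))}
    {W : ∀ j, GK K →* GL (Fin (N j)) (AlgebraicClosure (ZMod p))}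
    {Q : HeightOneSpectrum (𝓞 K) → (AlgebraicClosure (ZMod p))[X]}
    {R : κ → HeightOneSpectrum (𝓞 K) → (AlgebraicClosure (ZMod p))[X]}
    (hρo : IsOpen (ρ.ker : Set (GK K))) (hWo : ∀ j, IsOpen ((W j).ker : Set (GK K)))
    (hρ : Irr ρ) (hW : ∀ j, Irr (W j)) (hQ : Fac S ρ Q) (hR : ∀ j, Fac S (W j) (R j))
    {ψ : I → HeightOneSpectrum (𝓞 K) → ℂ} (hψ : ∀ i v, ‖ψ i v‖ ≤ 1) {M : ℕ}
    (hM₀ : n + ∑ j, (-m j).toNat * N j ≤ M) (hM : ∑ j, (m j).toNat * N j ≤ M) (hsep : Sep ψ M)
    (hc : ∀ i, Concentrated fun τ => Real.log (eA 0 (fun v => lift T (Q v)) (ψ i) τ) -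
      ∑ j, m j * Real.log (eA 0 (fun v => lift T (R j v)) (ψ i) τ)) :
    ∃ j, 0 < m j ∧ ∃ E : (Fin n → AlgebraicClosure (ZMod p)) ≃ₗ[AlgebraicClosure (ZMod p)]
        (Fin (N j) → AlgebraicClosure (ZMod p)),
      ∀ g x, E ((mt ρ g).mulVec x) = (mt (W j) g).mulVec (E x) := by
  classical
  have h₀ := typ_lift T (n := n) (Q := Q) hQ.deg
  have h := fun j => typ_lift T (n := N j) (Q := R j) (hR j).deg
  have key := Pool.Agent.Y719.NG.factors_int (B₀ := nz 0 fun v => lift T (Q v))
    (B := fun j => nz 0 fun v => lift T (R j v)) (m := m) h₀ h hψ hM₀ hM hsep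
    (fun i => by
      have := hc i
      simp only [eA_eq] at this
      exact this)
  simp only [nz_zero] at key
  refine constituent p hρ hW fun g => ?_
  -- closedness
  let U : Option κ → Subgroup (GK K) := fun o => match o with
    | none => ρ.ker
    | some j => (W j).ker
  have hU : ∀ o, IsOpen (U o : Set (GK K)) := fun o => match o with
    | none => hρo
    | some j => hWo j
  have hmul : ∀ {n : ℕ} (ρ : GK K →* GL (Fin n) (AlgebraicClosure (ZMod p))) (g u : GK K),
      u ∈ ρ.ker → mt ρ (g * u) = mt ρ g := by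
    intro n ρ g u hu
    rw [mt_mul]
    have h1 : mt ρ u = 1 := by
      unfold Pool.Agent.Y719.NG.mt
      rw [MonoidHom.mem_ker.1 hu, Units.val_one]
    rw [h1, mul_one]
  have hconj : ∀ {n : ℕ} (ρ : GK K →* GL (Fin n) (AlgebraicClosure (ZMod p))) (g t : GK K),
      (mt ρ (t * g * t⁻¹)).charpolyRev = (mt ρ g).charpolyRev := by
    intro n ρ g t
    unfold Pool.Agent.Y719.NG.mt
    rw [map_mul, map_mul, map_inv, Units.val_mul, Units.val_mul]
    exact charpolyRev_conj _ _
  refine closed_univK {g | (mt ρ g).charpolyRev * ∏ j, (mt (W j) g).charpolyRev ^ (-m j).toNat =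
      ∏ j, (mt (W j) g).charpolyRev ^ (m j).toNat} ?_ ?_ S hS ?_ g
  · refine isClosed_of_ker U hU _ fun g hg u hu => ?_
    have e1 : mt ρ (g * u) = mt ρ g := hmul ρ g u (hu none)
    have e2 : ∀ j, mt (W j) (g * u) = mt (W j) g := fun j => hmul (W j) g u (hu (some j))
    have hg' : (mt ρ g).charpolyRev * ∏ j, (mt (W j) g).charpolyRev ^ (-m j).toNat =
      ∏ j, (mt (W j) g).charpolyRev ^ (m j).toNat := hg
    change (mt ρ (g * u)).charpolyRev * ∏ j, (mt (W j) (g * u)).charpolyRev ^ (-m j).toNat =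
      ∏ j, (mt (W j) (g * u)).charpolyRev ^ (m j).toNat
    simp_rw [e1, e2]
    exact hg'
  · intro g hg t
    have hg' : (mt ρ g).charpolyRev * ∏ j, (mt (W j) g).charpolyRev ^ (-m j).toNat =
      ∏ j, (mt (W j) g).charpolyRev ^ (m j).toNat := hg
    change (mt ρ (t * g * t⁻¹)).charpolyRev *
      ∏ j, (mt (W j) (t * g * t⁻¹)).charpolyRev ^ (-m j).toNat =
      ∏ j, (mt (W j) (t * g * t⁻¹)).charpolyRev ^ (m j).toNat
    simp_rw [hconj]
    exact hg'
  · intro v hv g hg
    have h1 := key v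
    rw [← hQ.frob v hv g hg] at h1
    simp_rw [← fun j => (hR j).frob v hv g hg] at h1
    have hne : ∀ j, (mt (W j) g).charpoly ≠ 0 := fun j => (Matrix.charpoly_monic _).ne_zero
    have hpne : ∀ j (e : ℕ), (mt (W j) g).charpoly ^ e ≠ 0 := fun j e => pow_ne_zero _ (hne j)
    have hA : lift T ((mt ρ g).charpoly * ∏ j, (mt (W j) g).charpoly ^ (-m j).toNat) =
        lift T (∏ j, (mt (W j) g).charpoly ^ (m j).toNat) := by
      rw [lift_mul (Matrix.charpoly_monic _).ne_zero (prod_ne_zero_iff.2 fun j _ => hpne j _),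
        lift_prod _ _ fun j => hpne j _, lift_prod _ _ fun j => hpne j _]
      simp_rw [lift_pow (hne _)]
      exact h1
    have hmon : ∀ e : κ → ℕ, (∏ j, (mt (W j) g).charpoly ^ e j).Monic := fun e =>
      monic_prod_of_monic _ _ fun j _ => (Matrix.charpoly_monic _).pow _
    have hev : ∀ e : κ → ℕ, (∏ j, (mt (W j) g).charpoly ^ e j).eval 0 ≠ 0 := by
      intro e
      rw [eval_prod]
      refine prod_ne_zero_iff.2 fun j _ => ?_
      rw [eval_pow]
      exact pow_ne_zero _ (zero_not_root _ _)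
    have h2 := lift_injective hT ((Matrix.charpoly_monic _).mul (hmon _)) (hmon _)
      (fun h0 => by
        have h3 := (mem_roots'.1 h0).2
        rw [IsRoot.def, eval_mul] at h3
        exact mul_ne_zero (zero_not_root ρ g) (hev _) h3)
      (fun h0 => hev _ (mem_roots'.1 h0).2) hA
    have h3 := congrArg reverse h2
    rw [reverse_mul_of_domain, reverse_prod', reverse_prod', Matrix.reverse_charpoly] at h3
    simp_rw [reverse_pow', Matrix.reverse_charpoly] at h3
    exact h3

end Pool.Agent.Y719.BP
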