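import Pool.Agent.Y719.BP.Main

/-!
# One modulus in characteristic `p`
-/

set_option autoImplicit false

namespace Pool.Agent.Y719.BP

open Polynomial Finset NumberField IsDedekindDomain Filter Topology
open Pool.Agent.Y719.NG Pool.Agent.Y719.EL.N
open Pool.Agent.H921R2.TatePole
open Pool.Agent.Y774.MD (Concentrated GP)
open Pool.Agent.W401.Cheb (GK IsFrob IsInert)

/-- uniqueness of roots with constant term one -/
lemma root_unique {A B : ℂ[X]} {m : ℕ} (hm : 0 < m) (hA : A.coeff 0 = 1) (hB : B.coeff 0 = 1)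
    (h : A ^ m = B ^ m) : A = B := by
  have h1 := (Commute.all A B).geom_sum₂_mul m
  rw [h, sub_self] at h1
  rcases mul_eq_zero.1 h1 with h2 | h2
  · exfalso
    have h3 := congrArg (fun P : ℂ[X] => P.coeff 0) h2
    beta_reduce at h3
    rw [finsetSum_coeff, coeff_zero] at h3
    have h4 : ∀ i ∈ range m, (A ^ i * B ^ (m - 1 - i)).coeff 0 = 1 := by
      intro i _
      rw [mul_coeff_zero, (pow_coeffs hA _).1, (pow_coeffs hB _).1, one_mul]
    rw [sum_congr rfl h4, sum_const, card_range, nsmul_eq_mul, mul_one] at h3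
    exact hm.ne' (by exact_mod_cast h3)
  · exact sub_eq_zero.1 h2

variable {K : Type} [Field K] [NumberField K] [IsGalois ℚ K]

/-- the product over the orbit -/
lemma orbit_prod {A B : HeightOneSpectrum (𝓞 K) → ℂ[X]} (hA : ∀ v, (A v).coeff 0 = 1)
    (hB : ∀ v, (B v).coeff 0 = 1) {q : ℕ} (hq : q.Prime)
    (h : ∏ v : {v : HeightOneSpectrum (𝓞 K) // below v = ⟨q, hq⟩}, A v.1 =
      ∏ v : {v : HeightOneSpectrum (𝓞 K) // below v = ⟨q, hq⟩}, B v.1)
    (v : {v : HeightOneSpectrum (𝓞 K) // below v = ⟨q, hq⟩}) :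
    ∏ τ : K ≃ₐ[ℚ] K, A (pl τ v.1) = ∏ τ : K ≃ₐ[ℚ] K, B (pl τ v.1) := by
  classical
  have hmem : ∀ (τ : K ≃ₐ[ℚ] K) (w : {v : HeightOneSpectrum (𝓞 K) // below v = ⟨q, hq⟩}),
      below (pl τ w.1) = ⟨q, hq⟩ := fun τ w =>
    (below_of_mem hq).2 ((natCast_mem_pl τ w.1 q).2 ((below_of_mem hq).1 w.2))
  have key : ∀ d : HeightOneSpectrum (𝓞 K) → ℂ[X],
      (∏ τ : K ≃ₐ[ℚ] K, d (pl τ v.1)) ^
        Fintype.card {v : HeightOneSpectrum (𝓞 K) // below v = ⟨q, hq⟩} =
      (∏ w : {v : HeightOneSpectrum (𝓞 K) // below v = ⟨q, hq⟩}, d w.1) ^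
        Fintype.card (K ≃ₐ[ℚ] K) := by
    intro d
    have h1 : ∀ τ : K ≃ₐ[ℚ] K, ∏ w : {v : HeightOneSpectrum (𝓞 K) // below v = ⟨q, hq⟩},
        d (pl τ w.1) = ∏ w : {v : HeightOneSpectrum (𝓞 K) // below v = ⟨q, hq⟩}, d w.1 := by
      intro τ
      let e : {v : HeightOneSpectrum (𝓞 K) // below v = ⟨q, hq⟩} ≃
          {v : HeightOneSpectrum (𝓞 K) // below v = ⟨q, hq⟩} :=
        { toFun := fun w => ⟨pl τ w.1, hmem τ w⟩
          invFun := fun w => ⟨pl τ⁻¹ w.1, hmem τ⁻¹ w⟩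
          left_inv := fun w => by
            apply Subtype.ext
            change pl τ⁻¹ (pl τ w.1) = w.1
            rw [pl_pl, inv_mul_cancel, pl_one]
          right_inv := fun w => by
            apply Subtype.ext
            change pl τ (pl τ⁻¹ w.1) = w.1
            rw [pl_pl, mul_inv_cancel, pl_one] }
      exact Equiv.prod_comp e fun w => d w.1
    have h2 : ∀ w : {v : HeightOneSpectrum (𝓞 K) // below v = ⟨q, hq⟩},
        ∏ τ : K ≃ₐ[ℚ] K, d (pl τ w.1) = ∏ τ : K ≃ₐ[ℚ] K, d (pl τ v.1) := by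
      intro w
      obtain ⟨τ₀, hτ₀⟩ := exists_pl hq ((below_of_mem hq).1 v.2) ((below_of_mem hq).1 w.2)
      rw [← hτ₀]
      simp_rw [pl_pl]
      exact Equiv.prod_comp (Equiv.mulRight τ₀) fun τ => d (pl τ v.1)
    have h3 : ∏ w : {v : HeightOneSpectrum (𝓞 K) // below v = ⟨q, hq⟩},
        ∏ τ : K ≃ₐ[ℚ] K, d (pl τ w.1) = ∏ τ : K ≃ₐ[ℚ] K,
          ∏ w : {v : HeightOneSpectrum (𝓞 K) // below v = ⟨q, hq⟩}, d (pl τ w.1) :=
      Finset.prod_comm
    rw [prod_congr rfl fun w _ => h2 w, prod_congr rfl fun τ _ => h1 τ, prod_const, prod_const,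
      card_univ, card_univ] at h3
    exact h3
  have hpos : 0 < Fintype.card {v : HeightOneSpectrum (𝓞 K) // below v = ⟨q, hq⟩} :=
    Fintype.card_pos_iff.2 ⟨v⟩
  refine root_unique hpos (coeffs univ _ fun τ _ => hA _).1 (coeffs univ _ fun τ _ => hB _).1 ?_
  rw [key, key, h]

variable {κ : Type} [Fintype κ] {B₀ : HeightOneSpectrum (𝓞 K) → ℂ[X]}
  {B : κ → HeightOneSpectrum (𝓞 K) → ℂ[X]} {N₀ : ℕ} {n : κ → ℕ} {m : κ → ℤ}

/-- the identity of Euler factors over the orbits -/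
theorem orbit_factors (h₀ : Typ B₀ N₀) (h : ∀ k, Typ (B k) (n k))
    (hc : Concentrated fun τ => Real.log (edgeAbs B₀ τ) - ∑ k, m k * Real.log (edgeAbs (B k) τ))
    (v : HeightOneSpectrum (𝓞 K)) :
    ∏ τ : K ≃ₐ[ℚ] K, (B₀ (pl τ v) * ∏ k, B k (pl τ v) ^ (-m k).toNat) =
      ∏ τ : K ≃ₐ[ℚ] K, ∏ k, B k (pl τ v) ^ (m k).toNat := by
  obtain ⟨q, hq, hv⟩ : ∃ (q : ℕ) (hq : q.Prime), below v = ⟨q, hq⟩ :=
    ⟨(below v : ℕ), (below v).2, rfl⟩
  refine orbit_prod (A := fun v => B₀ v * ∏ k, B k v ^ (-m k).toNat)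
    (B := fun v => ∏ k, B k v ^ (m k).toNat) (fun v => ?_) (fun v => prod_coeff_zero h v _) hq ?_
    ⟨v, hv⟩
  · rw [mul_coeff_zero, h₀.one v, prod_coeff_zero h, one_mul]
  · have hf0 : 0 < deg v := (below_val hq ⟨v, hv⟩).2
    have hdeg : ∀ w : {v : HeightOneSpectrum (𝓞 K) // below v = ⟨q, hq⟩}, deg w.1 = deg v :=
      fun w => deg_const hq w ⟨v, hv⟩
    have key := GP_int h₀ h hc hq
    rw [GP_eq _ hq, GP_eq _ hq] at key
    simp_rw [hdeg] at key
    rw [← map_prod, ← map_prod] at key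
    exact expand_injective hf0 key

variable {p : ℕ} [Fact p.Prime] {n₀ : ℕ} {N : κ → ℕ}

lemma Irr.cj' {k : Type} [Field k] {n : ℕ} {ρ : GK K →* GL (Fin n) k} (h : Irr ρ)
    (σ : AlgebraicClosure K ≃+* AlgebraicClosure K) : Irr (ρ.comp (NG.cj σ)) := by
  refine ⟨h.1, fun W hW => h.2 W fun g x hx => ?_⟩
  obtain ⟨g', rfl⟩ := cj_surjective σ g
  exact hW g' x hx

/-- **One modulus in characteristic `p`.** -/
theorem modp_one (T : AlgebraicClosure (ZMod p) →*₀ ℂ) (hT : Function.Injective T)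
    (S : Set (HeightOneSpectrum (𝓞 K))) (hS : S.Finite)
    (hSt : ∀ τ : K ≃ₐ[ℚ] K, ∀ v, pl τ v ∈ S → v ∈ S)
    {ρ : GK K →* GL (Fin n₀) (AlgebraicClosure (ZMod p))}
    {W : ∀ j, GK K →* GL (Fin (N j)) (AlgebraicClosure (ZMod p))}
    {Q : HeightOneSpectrum (𝓞 K) → (AlgebraicClosure (ZMod p))[X]}
    {R : κ → HeightOneSpectrum (𝓞 K) → (AlgebraicClosure (ZMod p))[X]}
    (hρo : IsOpen (ρ.ker : Set (GK K))) (hWo : ∀ j, IsOpen ((W j).ker : Set (GK K)))
    (hρ : Irr ρ) (hW : ∀ j, Irr (W j)) (hQ : Fac S ρ Q) (hR : ∀ j, Fac S (W j) (R j))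
    (hc : Concentrated fun τ => Real.log (eA 0 (fun v => lift T (Q v)) (fun _ => 1) τ) -
      ∑ j, m j * Real.log (eA 0 (fun v => lift T (R j v)) (fun _ => 1) τ)) :
    ∃ j, 0 < m j ∧ ∃ σ : AlgebraicClosure K ≃+* AlgebraicClosure K,
      ∃ E : (Fin n₀ → AlgebraicClosure (ZMod p)) ≃ₗ[AlgebraicClosure (ZMod p)]
        (Fin (N j) → AlgebraicClosure (ZMod p)),
      ∀ g x, E ((mt ρ g).mulVec x) = (mt (W j) (cj σ g)).mulVec (E x) := by
  classical
  choose lft hlft using fun τ : K ≃ₐ[ℚ] K => exists_rs τ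
  have h₀ := typ_lift T (n := n₀) (Q := Q) hQ.deg
  have h := fun j => typ_lift T (n := N j) (Q := R j) (hR j).deg
  have key := orbit_factors (B₀ := nz 0 fun v => lift T (Q v))
    (B := fun j => nz 0 fun v => lift T (R j v)) (m := m) h₀ h (by
      have := hc
      simp only [eA_eq, tws_one] at this
      exact this)
  simp only [nz_zero] at key
  -- the representations
  let I : Type := Option κ × (K ≃ₐ[ℚ] K)
  let d : I → ℕ := fun i => i.1.elim n₀ N
  let V₀ : ∀ o : Option κ, GK K →* GL (Fin (o.elim n₀ N)) (AlgebraicClosure (ZMod p)) := fun o =>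
    match o with
    | none => ρ
    | some j => W j
  have hV₀ : ∀ o, Irr (V₀ o) := fun o => match o with
    | none => hρ
    | some j => hW j
  let V : ∀ i : I, GK K →* GL (Fin (d i)) (AlgebraicClosure (ZMod p)) := fun i =>
    (V₀ i.1).comp (cj (lft i.2))
  have hV : ∀ i, Irr (V i) := fun i => Irr.cj' (hV₀ i.1) _
  let a₀ : Option κ → ℕ := fun o => o.elim 1 fun j => (-m j).toNat
  let b₀ : Option κ → ℕ := fun o => o.elim 0 fun j => (m j).toNat
  have hmul : ∀ {n : ℕ} (ρ : GK K →* GL (Fin n) (AlgebraicClosure (ZMod p))) (g u : GK K),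
      u ∈ ρ.ker → mt ρ (g * u) = mt ρ g := by
    intro n ρ g u hu
    rw [mt_mul]
    have h1 : mt ρ u = 1 := by
      unfold Pool.Agent.Y719.NG.mt
      rw [MonoidHom.mem_ker.1 hu, Units.val_one]
    rw [h1, mul_one]
  have hconj : ∀ {n : ℕ} (ρ : GK K →* GL (Fin n) (AlgebraicClosure (ZMod p))) (g t : GK K),
      (mt ρ (t * g * t⁻¹)).charpolyRev = (mt ρ g).charpolyRev := by
    intro n ρ g t
    unfold Pool.Agent.Y719.NG.mt
    rw [map_mul, map_mul, map_inv, Units.val_mul, Units.val_mul]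
    exact charpolyRev_conj _ _
  have hiden : ∀ g, ∏ i : I, (mt (V i) g).charpolyRev ^ a₀ i.1 =
      ∏ i : I, (mt (V i) g).charpolyRev ^ b₀ i.1 := by
    intro g
    refine closed_univK {g | ∏ i : I, (mt (V i) g).charpolyRev ^ a₀ i.1 =
      ∏ i : I, (mt (V i) g).charpolyRev ^ b₀ i.1} ?_ ?_ S hS ?_ g
    · let U : I → Subgroup (GK K) := fun i => (V i).ker
      have hU : ∀ i, IsOpen (U i : Set (GK K)) := by
        rintro ⟨o, τ⟩
        have h1 : IsOpen ((V₀ o).ker : Set (GK K)) := match o with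
          | none => hρo
          | some j => hWo j
        exact h1.preimage (cj_continuous (lft τ))
      refine isClosed_of_ker U hU _ fun g hg u hu => ?_
      have e1 : ∀ i, mt (V i) (g * u) = mt (V i) g := fun i => hmul (V i) g u (hu i)
      have hg' : ∏ i : I, (mt (V i) g).charpolyRev ^ a₀ i.1 =
        ∏ i : I, (mt (V i) g).charpolyRev ^ b₀ i.1 := hg
      change ∏ i : I, (mt (V i) (g * u)).charpolyRev ^ a₀ i.1 =
        ∏ i : I, (mt (V i) (g * u)).charpolyRev ^ b₀ i.1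
      simp_rw [e1]
      exact hg'
    · intro g hg t
      have hg' : ∏ i : I, (mt (V i) g).charpolyRev ^ a₀ i.1 =
        ∏ i : I, (mt (V i) g).charpolyRev ^ b₀ i.1 := hg
      change ∏ i : I, (mt (V i) (t * g * t⁻¹)).charpolyRev ^ a₀ i.1 =
        ∏ i : I, (mt (V i) (t * g * t⁻¹)).charpolyRev ^ b₀ i.1
      simp_rw [hconj]
      exact hg'
    · intro v hv g hg
      change ∏ i : I, (mt (V i) g).charpolyRev ^ a₀ i.1 =
        ∏ i : I, (mt (V i) g).charpolyRev ^ b₀ i.1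
      have h2 : ∀ τ : K ≃ₐ[ℚ] K, pl τ v ∉ S := fun τ hτ => hv (hSt τ v hτ)
      have h3 : ∀ τ : K ≃ₐ[ℚ] K, IsFrob (pl τ v) (cj (lft τ) g) := by
        intro τ
        have := frob_cj (lft τ) hg
        rwa [hlft] at this
      have e1 : ∀ τ : K ≃ₐ[ℚ] K, Q (pl τ v) = (mt ρ (cj (lft τ) g)).charpoly := fun τ =>
        (hQ.frob _ (h2 τ) _ (h3 τ)).symm
      have e2 : ∀ (j : κ) (τ : K ≃ₐ[ℚ] K), R j (pl τ v) = (mt (W j) (cj (lft τ) g)).charpoly :=
        fun j τ => ((hR j).frob _ (h2 τ) _ (h3 τ)).symm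
      have h1 := key v
      simp_rw [e1, e2] at h1
      have hne : ∀ i : I, (mt (V i) g).charpoly ≠ 0 := fun i => (Matrix.charpoly_monic _).ne_zero
      have hpne : ∀ (i : I) (e : ℕ), (mt (V i) g).charpoly ^ e ≠ 0 := fun i e =>
        pow_ne_zero _ (hne i)
      have hsplit : ∀ (f : I → ℂ[X]), ∏ i : I, f i = ∏ τ : K ≃ₐ[ℚ] K, (f (none, τ) *
          ∏ j, f (some j, τ)) := by
        intro f
        rw [Fintype.prod_prod_type_right]
        exact prod_congr rfl fun τ _ => Fintype.prod_option _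
      have hA : lift T (∏ i : I, (mt (V i) g).charpoly ^ a₀ i.1) =
          lift T (∏ i : I, (mt (V i) g).charpoly ^ b₀ i.1) := by
        rw [lift_prod _ _ fun i => hpne i _, lift_prod _ _ fun i => hpne i _]
        simp_rw [lift_pow (hne _)]
        rw [hsplit, hsplit]
        have e3 : ∀ τ : K ≃ₐ[ℚ] K, lift T (mt (V (none, τ)) g).charpoly ^ a₀ none *
            ∏ j, lift T (mt (V (some j, τ)) g).charpoly ^ a₀ (some j) =
            lift T (mt ρ (cj (lft τ) g)).charpoly *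
            ∏ j, lift T (mt (W j) (cj (lft τ) g)).charpoly ^ (-m j).toNat := by
          intro τ
          have e4 : lift T (mt (V (none, τ)) g).charpoly ^ a₀ none =
            lift T (mt ρ (cj (lft τ) g)).charpoly := pow_one _
          rw [e4]
          rfl
        have e5 : ∀ τ : K ≃ₐ[ℚ] K, lift T (mt (V (none, τ)) g).charpoly ^ b₀ none *
            ∏ j, lift T (mt (V (some j, τ)) g).charpoly ^ b₀ (some j) =
            ∏ j, lift T (mt (W j) (cj (lft τ) g)).charpoly ^ (m j).toNat := by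
          intro τ
          have e4 : lift T (mt (V (none, τ)) g).charpoly ^ b₀ none = 1 := pow_zero _
          rw [e4, one_mul]
          rfl
        rw [prod_congr rfl fun τ _ => e3 τ, prod_congr rfl fun τ _ => e5 τ]
        exact h1
      have hmon : ∀ e : I → ℕ, (∏ i, (mt (V i) g).charpoly ^ e i).Monic := fun e =>
        monic_prod_of_monic _ _ fun i _ => (Matrix.charpoly_monic _).pow _
      have hev : ∀ e : I → ℕ, (∏ i, (mt (V i) g).charpoly ^ e i).eval 0 ≠ 0 := by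
        intro e
        rw [eval_prod]
        refine prod_ne_zero_iff.2 fun i _ => ?_
        rw [eval_pow]
        exact pow_ne_zero _ (zero_not_root _ _)
      have h5 := lift_injective hT (hmon _) (hmon _) (fun h0 => hev _ (mem_roots'.1 h0).2)
        (fun h0 => hev _ (mem_roots'.1 h0).2) hA
      have h6 := congrArg reverse h5
      rw [reverse_prod', reverse_prod'] at h6
      simp_rw [reverse_pow', Matrix.reverse_charpoly] at h6
      exact h6
  have h1 := powers p V hV (fun i => a₀ i.1) (fun i => b₀ i.1) hiden (none, 1)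
  have h2 : 0 < ∑ i with Eqv (V i) (V (none, 1)), a₀ i.1 := by
    refine lt_of_lt_of_le ?_ (single_le_sum (f := fun i : I => a₀ i.1) (fun _ _ => Nat.zero_le _)
      (mem_filter.2 ⟨mem_univ ((none, 1) : I), fun x => Iff.rfl⟩))
    exact Nat.one_pos
  rw [h1] at h2
  obtain ⟨i, hi, hi'⟩ := exists_ne_zero_of_sum_ne_zero h2.ne'
  match i, hi, hi' with
  | (none, _), _, hi' => exact absurd rfl hi'
  | (some j, τ), hi, hi' =>
    obtain ⟨E, hE⟩ := equiv_of_eqv (hV (none, 1)) (hV (some j, τ))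
      fun x => ((mem_filter.1 hi).2 x).symm
    refine ⟨j, ?_, (lft 1).symm.trans (lft τ), E, fun g x => ?_⟩
    · have h3 : (m j).toNat ≠ 0 := hi'
      omega
    · obtain ⟨g', rfl⟩ := cj_surjective (lft 1) g
      have h3 := hE g' x
      have h4 : cj ((lft 1).symm.trans (lft τ)) (cj (lft 1) g') = cj (lft τ) g' := by
        apply AlgEquiv.ext
        intro x
        simp only [cj_apply, RingEquiv.trans_apply, RingEquiv.symm_trans_apply,
          RingEquiv.symm_symm, RingEquiv.symm_apply_apply]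
      rw [h4]
      exact h3

end Pool.Agent.Y719.BP
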