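import Pool.Agent.Y719.BP.Ind

/-!
# Integral powers of characteristic polynomials in characteristic `p`
-/

set_option autoImplicit false

namespace Pool.Agent.Y719.BP

open Polynomial Finset Pool.Agent.Y719.NG

section coeff

variable {R : Type} [CommRing R] {I : Type}

lemma coeffs (s : Finset I) (f : I → R[X]) (hf : ∀ i ∈ s, (f i).coeff 0 = 1) :
    (∏ i ∈ s, f i).coeff 0 = 1 ∧ (∏ i ∈ s, f i).coeff 1 = ∑ i ∈ s, (f i).coeff 1 := by
  classical
  induction s using Finset.induction_on with
  | empty => simp [coeff_one]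
  | insert i s hi ih =>
    obtain ⟨h1, h2⟩ := ih fun j hj => hf j (mem_insert_of_mem hj)
    have h3 := hf i (mem_insert_self i s)
    rw [prod_insert hi, sum_insert hi, mul_coeff_zero, mul_coeff_one, h1, h2, h3]
    constructor <;> ring

lemma pow_coeffs {P : R[X]} (h : P.coeff 0 = 1) (a : ℕ) :
    (P ^ a).coeff 0 = 1 ∧ (P ^ a).coeff 1 = a * P.coeff 1 := by
  induction a with
  | zero => simp [coeff_one]
  | succ a ih =>
    rw [pow_succ, mul_coeff_zero, mul_coeff_one, ih.1, ih.2, h]
    push_cast
    constructor <;> ring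

end coeff

variable {G : Type} [Group G] {k : Type} [Field k] {I : Type} [Fintype I] {d : I → ℕ}

lemma rev_coeff_zero {n : ℕ} (M : Matrix (Fin n) (Fin n) k) : M.charpolyRev.coeff 0 = 1 := by
  rw [coeff_zero_eq_eval_zero, Matrix.eval_charpolyRev]

lemma rev_ne_zero {n : ℕ} (M : Matrix (Fin n) (Fin n) k) : M.charpolyRev ≠ 0 := by
  intro h
  have h1 := rev_coeff_zero M
  rw [h, coeff_zero] at h1
  exact zero_ne_one h1

variable [IsAlgClosed k]

theorem powers_distinct (p : ℕ) [Fact p.Prime] [CharP k p] (V : ∀ i, G →* GL (Fin (d i)) k)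
    (hV : ∀ i, Irr (V i)) (hd : ∀ i j, Eqv (V i) (V j) → i = j) (N : ℕ) :
    ∀ a b : I → ℕ, ∑ i, (a i + b i) = N →
      (∀ g, ∏ i, (mt (V i) g).charpolyRev ^ a i = ∏ i, (mt (V i) g).charpolyRev ^ b i) →
      a = b := by
  classical
  have hp : p.Prime := Fact.out
  induction N using Nat.strong_induction_on with
  | _ N ih =>
    intro a b hN h
    rcases Nat.eq_zero_or_pos N with hN0 | hN0
    · subst hN0
      have h1 : ∀ i, a i + b i = 0 := fun i => (sum_eq_zero_iff.1 hN) i (mem_univ i)
      funext i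
      have := h1 i
      omega
    -- the exponents are congruent
    have hmod : ∀ i, a i ≡ b i [MOD p] := by
      intro i
      rw [← CharP.natCast_eq_natCast k p, ← sub_eq_zero]
      refine indep V hV hd (fun i => (a i : k) - (b i : k)) (fun g => ?_) i
      have h1 : ∀ e : I → ℕ, (∏ i, (mt (V i) g).charpolyRev ^ e i).coeff 1 =
          - ∑ i, (e i : k) * (mt (V i) g).trace := by
        intro e
        rw [(coeffs univ _ fun i _ => (pow_coeffs (rev_coeff_zero _) _).1).2, ← sum_neg_distrib]
        refine sum_congr rfl fun i _ => ?_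
        rw [(pow_coeffs (rev_coeff_zero _) _).2, Matrix.coeff_charpolyRev_eq_neg_trace]
        ring
      have h2 := congrArg (fun Q : k[X] => Q.coeff 1) (h g)
      beta_reduce at h2
      rw [h1, h1, neg_inj] at h2
      simp_rw [sub_mul]
      rw [sum_sub_distrib, h2, sub_self]
    have hdiv : ∀ i, ∃ u v : ℕ, a i = min (a i) (b i) + p * u ∧ b i = min (a i) (b i) + p * v := by
      intro i
      rcases le_total (a i) (b i) with hle | hle
      · obtain ⟨c, hc⟩ := (Nat.modEq_iff_dvd' hle).1 (hmod i)
        refine ⟨0, c, ?_, ?_⟩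
        · rw [min_eq_left hle, mul_zero, add_zero]
        · rw [min_eq_left hle, ← hc]
          omega
      · obtain ⟨c, hc⟩ := (Nat.modEq_iff_dvd' hle).1 (hmod i).symm
        refine ⟨c, 0, ?_, ?_⟩
        · rw [min_eq_right hle, ← hc]
          omega
        · rw [min_eq_right hle, mul_zero, add_zero]
    choose u v hu hv using hdiv
    have hexp : ∀ (g : G) (e f : I → ℕ), (∀ i, e i = min (a i) (b i) + p * f i) →
        ∏ i, (mt (V i) g).charpolyRev ^ e i = (∏ i, (mt (V i) g).charpolyRev ^ min (a i) (b i)) *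
          (∏ i, (mt (V i) g).charpolyRev ^ f i) ^ p := by
      intro g e f hef
      rw [← prod_pow, ← prod_mul_distrib]
      refine prod_congr rfl fun i _ => ?_
      rw [hef i, pow_add, mul_comm p, pow_mul]
    have key : ∀ g, ∏ i, (mt (V i) g).charpolyRev ^ u i = ∏ i, (mt (V i) g).charpolyRev ^ v i := by
      intro g
      have h1 := h g
      rw [hexp g a u hu, hexp g b v hv] at h1
      have h2 : (∏ i, (mt (V i) g).charpolyRev ^ min (a i) (b i)) ≠ 0 :=
        prod_ne_zero_iff.2 fun i _ => pow_ne_zero _ (rev_ne_zero _)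
      have h3 := mul_left_cancel₀ h2 h1
      have h4 : frobenius k[X] p (∏ i, (mt (V i) g).charpolyRev ^ u i) =
          frobenius k[X] p (∏ i, (mt (V i) g).charpolyRev ^ v i) := by
        rw [frobenius_def, frobenius_def]
        exact h3
      exact frobenius_inj k[X] p h4
    have hlt : ∑ i, (u i + v i) < N := by
      have h1 : 2 * ∑ i, (u i + v i) ≤ N := by
        rw [← hN, mul_sum]
        refine sum_le_sum fun i _ => ?_
        have h2 := hu i
        have h3 := hv i
        have h4 : 2 * u i ≤ p * u i := Nat.mul_le_mul_right _ hp.two_le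
        have h5 : 2 * v i ≤ p * v i := Nat.mul_le_mul_right _ hp.two_le
        omega
      omega
    have huv := ih _ hlt u v rfl key
    funext i
    have h1 := hu i
    rw [huv] at h1
    exact h1.trans (hv i).symm

/-- **Integral powers.** -/
theorem powers (p : ℕ) [Fact p.Prime] [CharP k p] (V : ∀ i, G →* GL (Fin (d i)) k)
    (hV : ∀ i, Irr (V i)) (a b : I → ℕ)
    (h : ∀ g, ∏ i, (mt (V i) g).charpolyRev ^ a i = ∏ i, (mt (V i) g).charpolyRev ^ b i)
    (i₀ : I) [DecidablePred fun i => Eqv (V i) (V i₀)] :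
    ∑ i with Eqv (V i) (V i₀), a i = ∑ i with Eqv (V i) (V i₀), b i := by
  classical
  let s : Setoid I :=
    { r := fun i j => Eqv (V i) (V j)
      iseqv := ⟨fun i x => Iff.rfl, fun h x => (h x).symm, fun h h' x => (h x).trans (h' x)⟩ }
  have : Fintype (Quotient s) := Fintype.ofFinite _
  have hout : ∀ i, Eqv (V (Quotient.mk s i).out) (V i) := fun i => Quotient.mk_out i
  have hrev : ∀ (g : G) (i : I), (mt (V (Quotient.mk s i).out) g).charpolyRev =
      (mt (V i) g).charpolyRev := by
    intro g i
    rw [← Matrix.reverse_charpoly, ← Matrix.reverse_charpoly, charpoly_eq (hV _) (hV _) (hout i)]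
  let f : (I → ℕ) → Quotient s → ℕ := fun e q => ∑ i with Quotient.mk s i = q, e i
  have hf : ∀ (g : G) (e : I → ℕ), ∏ q : Quotient s, (mt (V q.out) g).charpolyRev ^ f e q =
      ∏ i, (mt (V i) g).charpolyRev ^ e i := by
    intro g e
    rw [← prod_fiberwise univ (fun i => Quotient.mk s i)
      fun i => (mt (V i) g).charpolyRev ^ e i]
    refine prod_congr rfl fun q _ => ?_
    rw [← prod_pow_eq_pow_sum]
    refine prod_congr rfl fun i hi => ?_
    rw [← (mem_filter.1 hi).2, hrev]
  have h1 := powers_distinct p (fun q : Quotient s => V q.out) (fun q => hV _)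
    (fun q q' hq => by
      have h2 : Quotient.mk s q.out = Quotient.mk s q'.out := Quotient.sound hq
      rwa [Quotient.out_eq, Quotient.out_eq] at h2) _ (f a) (f b) rfl fun g => by
        rw [hf, hf]
        exact h g
  have h2 := congrFun h1 (Quotient.mk s i₀)
  have h3 : ∀ i, Quotient.mk s i = Quotient.mk s i₀ ↔ Eqv (V i) (V i₀) := fun i => Quotient.eq
  simp only [f] at h2
  simp_rw [h3] at h2
  exact h2

/-- **A constituent from integral powers of characteristic polynomials.** -/
theorem constituent (p : ℕ) [Fact p.Prime] [CharP k p] {κ : Type} [Fintype κ] {n : ℕ}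
    {N : κ → ℕ} {m : κ → ℤ} {ρ : G →* GL (Fin n) k} {W : ∀ j, G →* GL (Fin (N j)) k}
    (hρ : Irr ρ) (hW : ∀ j, Irr (W j))
    (h : ∀ g, (mt ρ g).charpolyRev * ∏ j, (mt (W j) g).charpolyRev ^ (-m j).toNat =
      ∏ j, (mt (W j) g).charpolyRev ^ (m j).toNat) :
    ∃ j, 0 < m j ∧ ∃ E : (Fin n → k) ≃ₗ[k] (Fin (N j) → k),
      ∀ g x, E ((mt ρ g).mulVec x) = (mt (W j) g).mulVec (E x) := by
  classical
  let d : Option κ → ℕ := fun o => o.elim n N
  let V : ∀ o : Option κ, G →* GL (Fin (d o)) k := fun o => match o with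
    | none => ρ
    | some j => W j
  have hV : ∀ o, Irr (V o) := fun o => match o with
    | none => hρ
    | some j => hW j
  let a : Option κ → ℕ := fun o => o.elim 1 fun j => (-m j).toNat
  let b : Option κ → ℕ := fun o => o.elim 0 fun j => (m j).toNat
  have h1 := powers p V hV a b (fun g => by
    rw [Fintype.prod_option, Fintype.prod_option]
    have e1 : (mt (V none) g).charpolyRev ^ a none = (mt ρ g).charpolyRev := pow_one _
    have e2 : (mt (V none) g).charpolyRev ^ b none = 1 := pow_zero _
    rw [e1, e2, one_mul]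
    exact h g) none
  have h2 : 0 < ∑ o with Eqv (V o) (V none), a o := by
    refine lt_of_lt_of_le ?_ (single_le_sum (f := a) (fun _ _ => Nat.zero_le _)
      (mem_filter.2 ⟨mem_univ (none : Option κ), fun x => Iff.rfl⟩))
    exact Nat.one_pos
  rw [h1] at h2
  obtain ⟨o, ho, ho'⟩ := exists_ne_zero_of_sum_ne_zero h2.ne'
  match o, ho, ho' with
  | none, _, ho' => exact absurd rfl ho'
  | some j, ho, ho' =>
    refine ⟨j, ?_, equiv_of_eqv hρ (hW j) fun x => ((mem_filter.1 ho).2 x).symm⟩
    have h3 : (m j).toNat ≠ 0 := ho'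
    omega

end Pool.Agent.Y719.BP
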